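import Pool.Agent.Helper50.MB.Goals

/-!
Project MB (MP_fda85d_co): packet GE. Evenness for the graph of a semi-meander and its dual.
-/

namespace Pool.Agent.Helper19.MB

open Pool.Agent.Helper50.MB

theorem ofNat_eq_iff {N : ℕ} [NeZero N] {k : ℕ} (hk : k < N) (i : Fin N) :
    Fin.ofNat N k = i ↔ k = i.1 := by
  rw [Fin.ext_iff]
  simp [Fin.ofNat, Nat.mod_eq_of_lt hk]

theorem cast_inc {V E : Type} [DecidableEq V] (s t : E → V) (v : V) (e : E) :
    ((inc s t v e : ℕ) : ZMod 2) = (if s e = v then 1 else 0) + (if t e = v then 1 else 0) := by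
  unfold inc
  push_cast
  congr

/-- `cr z = i` for a side `z` in the range. -/
theorem cr_eq_iff (z : ℤ) (i : ℕ) : cr z = i ↔ z = i ∨ z = -1 - i := by
  unfold cr
  split_ifs with h <;> omega

theorem cr_lt {N : ℕ} {z : ℤ} (h1 : -(N : ℤ) ≤ z) (h2 : z < N) : cr z < N := by
  unfold cr
  split_ifs with h <;> omega

theorem ite_or_disj {p q : Prop} [Decidable p] [Decidable q] (h : ¬ (p ∧ q)) :
    (if p ∨ q then (1 : ZMod 2) else 0) = (if p then 1 else 0) + (if q then 1 else 0) := by
  by_cases hp : p <;> by_cases hq : q <;> simp_all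

/-- Every point in the range is exactly one end of exactly one arc. -/
theorem arc_sum {l h : ℤ} {a : ℤ → ℤ} (hN : NCI l h a) [Fintype {x : ℤ // x < a x}]
    (I : ℤ → ZMod 2) (z : ℤ) (h1 : l ≤ z) (h2 : z < h) :
    ∑ x : {x : ℤ // x < a x}, ((if x.1 = z then 1 else 0) * I x.1 +
      (if a x.1 = z then 1 else 0) * I (a x.1)) = I z := by
  have hne := hN.ne z h1 h2
  rcases lt_or_gt_of_ne hne with hlt | hgt
  · -- `a z < z`: the left end is `a z`
    have hx : a z < a (a z) := by rw [hN.inv]; exact hlt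
    rw [Finset.sum_eq_single (⟨a z, hx⟩ : {x : ℤ // x < a x})]
    · simp only
      rw [hN.inv, if_neg hne, if_pos rfl]
      ring
    · rintro ⟨x, hxx⟩ - hne'
      simp only
      have i1 : x ≠ z := by
        rintro rfl
        omega
      have i2 : a x ≠ z := by
        intro he
        apply hne'
        apply Subtype.ext
        simp only
        rw [← he, hN.inv]
      rw [if_neg i1, if_neg i2]
      ring
    · intro hcon
      exact absurd (Finset.mem_univ _) hcon
  · rw [Finset.sum_eq_single (⟨z, hgt⟩ : {x : ℤ // x < a x})]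
    · simp only
      rw [if_neg hne]
      simp
    · rintro ⟨x, hxx⟩ - hne'
      simp only
      have i1 : x ≠ z := fun he => hne' (Subtype.ext he)
      have i2 : a x ≠ z := by
        intro he
        have := hN.inv x
        rw [he] at this hxx
        omega
      rw [if_neg i1, if_neg i2]
      ring
    · intro hcon
      exact absurd (Finset.mem_univ _) hcon

theorem goalGE : Pool.Agent.Helper50.MB.GE := by
  intro N _ a _ enc hN hE i f
  classical
  haveI : Finite {x : ℤ // x < a x} :=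
    Finite.of_injective (Sum.inr : {x : ℤ // x < a x} → Ed N a) Sum.inr_injective
  letI : Fintype {x : ℤ // x < a x} := Fintype.ofFinite _
  rw [← ZMod.natCast_eq_zero_iff_even]
  have hsum : ∑ e, inc (gS N a) (gT N a) i e * inc (qS N a enc) (qT N a enc) f e =
      ∑ j : Fin (N - 1), inc (gS N a) (gT N a) i (Sum.inl j) *
          inc (qS N a enc) (qT N a enc) f (Sum.inl j) +
        ∑ x : {x : ℤ // x < a x}, inc (gS N a) (gT N a) i (Sum.inr x) *
          inc (qS N a enc) (qT N a enc) f (Sum.inr x) := by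
    rw [← Fintype.sum_sum_type (fun e : Ed N a => inc (gS N a) (gT N a) i e *
      inc (qS N a enc) (qT N a enc) f e)]
    refine Finset.sum_congr ?_ fun _ _ => rfl
    ext e
    simp
  rw [hsum]
  push_cast
  set E : ℤ → ZMod 2 := fun p => if enc p = f then 1 else 0 with hEdef
  have hi := i.2
  have hNpos : 0 < N := Nat.pos_of_ne_zero (NeZero.ne N)
  -- the arcs
  have harc : ∑ x : {x : ℤ // x < a x}, ((inc (gS N a) (gT N a) i (Sum.inr x) : ℕ) : ZMod 2) *
      ((inc (qS N a enc) (qT N a enc) f (Sum.inr x) : ℕ) : ZMod 2) =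
      (E i.1 + E (i.1 + 1)) + (E (-1 - i.1) + E (-1 - i.1 + 1)) := by
    have hterm : ∀ x : {x : ℤ // x < a x}, ((inc (gS N a) (gT N a) i (Sum.inr x) : ℕ) : ZMod 2) *
      ((inc (qS N a enc) (qT N a enc) f (Sum.inr x) : ℕ) : ZMod 2) =
        ((if x.1 = (i.1 : ℤ) then 1 else 0) * (E x.1 + E (x.1 + 1)) +
          (if a x.1 = (i.1 : ℤ) then 1 else 0) * (E (a x.1) + E (a x.1 + 1))) +
        ((if x.1 = -1 - (i.1 : ℤ) then 1 else 0) * (E x.1 + E (x.1 + 1)) +
          (if a x.1 = -1 - (i.1 : ℤ) then 1 else 0) * (E (a x.1) + E (a x.1 + 1))) := by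
      intro x
      have hx1 : -(N : ℤ) ≤ x.1 ∧ x.1 < N := by
        by_contra hcon
        have := hN.out x.1 (by omega)
        have h2 := x.2
        omega
      have hx2 : -(N : ℤ) ≤ a x.1 ∧ a x.1 < N := by
        by_contra hcon
        have := hN.out (a x.1) (by omega)
        rw [hN.inv] at this
        have h2 := x.2
        omega
      rw [cast_inc, cast_inc]
      have g1 : gS N a (Sum.inr x) = i ↔ x.1 = (i.1 : ℤ) ∨ x.1 = -1 - (i.1 : ℤ) := by
        change Fin.ofNat N (cr x.1) = i ↔ _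
        rw [ofNat_eq_iff (cr_lt hx1.1 hx1.2), cr_eq_iff]
      have g2 : gT N a (Sum.inr x) = i ↔ a x.1 = (i.1 : ℤ) ∨ a x.1 = -1 - (i.1 : ℤ) := by
        change Fin.ofNat N (cr (a x.1)) = i ↔ _
        rw [ofNat_eq_iff (cr_lt hx2.1 hx2.2), cr_eq_iff]
      have q1 : (if qS N a enc (Sum.inr x) = f then (1 : ZMod 2) else 0) = E (x.1 + 1) := by
        simp only [hEdef, hE.left]
        rfl
      have q2 : (if qT N a enc (Sum.inr x) = f then (1 : ZMod 2) else 0) = E x.1 := rfl
      have q3 : E (a x.1) = E (x.1 + 1) := by simp only [hEdef, hE.left, hE.right]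
      have q4 : E (a x.1 + 1) = E x.1 := by simp only [hEdef, hE.right']
      rw [q1, q2, q3, q4]
      simp only [g1, g2]
      rw [ite_or_disj (by omega), ite_or_disj (by omega)]
      ring
    rw [Finset.sum_congr rfl fun x _ => hterm x, Finset.sum_add_distrib]
    rw [arc_sum hN (fun z => E z + E (z + 1)) (i.1 : ℤ) (by omega) (by omega),
      arc_sum hN (fun z => E z + E (z + 1)) (-1 - (i.1 : ℤ)) (by omega) (by omega)]
  -- the pieces of the ray
  have hray : ∑ j : Fin (N - 1), ((inc (gS N a) (gT N a) i (Sum.inl j) : ℕ) : ZMod 2) *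
      ((inc (qS N a enc) (qT N a enc) f (Sum.inl j) : ℕ) : ZMod 2) =
      (E (i.1 + 1) + E (-1 - i.1)) + (E i.1 + E (-i.1)) := by
    have hterm : ∀ j : Fin (N - 1), ((inc (gS N a) (gT N a) i (Sum.inl j) : ℕ) : ZMod 2) *
      ((inc (qS N a enc) (qT N a enc) f (Sum.inl j) : ℕ) : ZMod 2) =
        (fun j : ℕ => (if j = i.1 then E ((j : ℤ) + 1) + E (-1 - (j : ℤ)) else 0) +
          (if j + 1 = i.1 then E ((j : ℤ) + 1) + E (-1 - (j : ℤ)) else 0)) j.1 := by
      intro j
      have hj := j.2
      rw [cast_inc, cast_inc]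
      have g1 : gS N a (Sum.inl j) = i ↔ j.1 = i.1 := by
        change Fin.ofNat N j.1 = i ↔ _
        rw [ofNat_eq_iff (by omega)]
      have g2 : gT N a (Sum.inl j) = i ↔ j.1 + 1 = i.1 := by
        change Fin.ofNat N (j.1 + 1) = i ↔ _
        rw [ofNat_eq_iff (by omega)]
      have q1 : (if qS N a enc (Sum.inl j) = f then (1 : ZMod 2) else 0) = E ((j.1 : ℤ) + 1) := rfl
      have q2 : (if qT N a enc (Sum.inl j) = f then (1 : ZMod 2) else 0) = E (-1 - (j.1 : ℤ)) := rfl
      rw [q1, q2]
      simp only [g1, g2]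
      split_ifs <;> ring
    rw [Finset.sum_congr rfl fun j _ => hterm j]
    rw [Fin.sum_univ_eq_sum_range (fun j : ℕ =>
      (if j = i.1 then E ((j : ℤ) + 1) + E (-1 - (j : ℤ)) else 0) +
          (if j + 1 = i.1 then E ((j : ℤ) + 1) + E (-1 - (j : ℤ)) else 0)) (N - 1),
      Finset.sum_add_distrib]
    have hz : ∀ t : ZMod 2, t + t = 0 := by decide
    have s1 : ∑ j ∈ Finset.range (N - 1), (if j = i.1 then E ((j : ℤ) + 1) + E (-1 - (j : ℤ)) else 0)
        = E (i.1 + 1) + E (-1 - i.1) := by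
      rw [Finset.sum_ite_eq']
      split_ifs with hmem
      · rfl
      · have hiN : (i.1 : ℤ) + 1 = N := by
          rw [Finset.mem_range] at hmem
          omega
        have e1 : enc ((i.1 : ℤ) + 1) = none := hE.high _ (by omega)
        have e2 : enc (-1 - (i.1 : ℤ)) = none := hE.low _ (by omega)
        simp only [hEdef, e1, e2]
        exact (hz _).symm
    have s2 : ∑ j ∈ Finset.range (N - 1), (if j + 1 = i.1 then E ((j : ℤ) + 1) + E (-1 - (j : ℤ))
        else 0) = E i.1 + E (-i.1) := by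
      rcases Nat.eq_zero_or_pos i.1 with h0 | hpos
      · rw [Finset.sum_eq_zero]
        · rw [h0]
          simp only [Nat.cast_zero, neg_zero]
          exact (hz _).symm
        · intro j _
          rw [if_neg (by omega)]
      · rw [Finset.sum_eq_single (i.1 - 1)]
        · rw [if_pos (by omega)]
          have e1 : ((i.1 - 1 : ℕ) : ℤ) + 1 = (i.1 : ℤ) := by omega
          have e2 : -1 - ((i.1 - 1 : ℕ) : ℤ) = -(i.1 : ℤ) := by omega
          rw [e1, e2]
        · intro j _ hj
          rw [if_neg (by omega)]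
        · intro hcon
          rw [Finset.mem_range] at hcon
          omega
    rw [s1, s2]
  rw [harc, hray]
  have e3 : -1 - (i.1 : ℤ) + 1 = -(i.1 : ℤ) := by ring
  rw [e3]
  have hz : ∀ s t u v : ZMod 2, s + t + (u + v) + (u + s + (t + v)) = 0 := by decide
  exact hz _ _ _ _

end Pool.Agent.Helper19.MB
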